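import Pool.Agent.H212R2.KLS.T1

set_option autoImplicit false
set_option linter.unusedSectionVars false

/-!
# A triple convolution inequality for convex sets

For a convex set `K` in a space of dimension `n` put `K_z = {x ∈ K | 2 z - x ∈ K}`.  For every
weight `ω ≥ 0`,
`∫_K ∫_K ∫_K ω ((x + y + t) / 3) ≤ (27 / 8) ^ n * ∫ ω z * |K_z| ^ 2`.
-/

namespace Pool.Agent.TH619.SYM

open MeasureTheory Set
open scoped ENNReal Pointwise

variable {F : Type*} [NormedAddCommGroup F] [NormedSpace ℝ F] [FiniteDimensional ℝ F]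
  [MeasurableSpace F] [BorelSpace F] (μ : Measure F) [μ.IsAddHaarMeasure]

/-- affine change of variables -/
theorem lint_aff (r : ℝ) (hr : r ≠ 0) (a : F) (f : F → ℝ≥0∞) (hf : Measurable f) :
    ∫⁻ x, f x ∂μ =
      ENNReal.ofReal (|r| ^ Module.finrank ℝ F) * ∫⁻ x, f (r • x + a) ∂μ := by
  have h1 : ∫⁻ x, f (r • x + a) ∂μ = ∫⁻ y, f (y + a) ∂(Measure.map (fun x : F => r • x) μ) := by
    rw [lintegral_map (by fun_prop) (by fun_prop)]
  rw [h1, Measure.map_addHaar_smul μ hr, lintegral_smul_measure, lintegral_add_right_eq_self]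
  rw [smul_eq_mul, ← mul_assoc, ← ENNReal.ofReal_mul (by positivity)]
  have : |r| ^ Module.finrank ℝ F * |(r ^ Module.finrank ℝ F)⁻¹| = 1 := by
    rw [abs_inv, abs_pow]
    have : |r| ^ Module.finrank ℝ F ≠ 0 := pow_ne_zero _ (abs_ne_zero.2 hr)
    field_simp
  rw [this]
  simp

/-- the part of `K` symmetric about `z` -/
def Ks (K : Set F) (z : F) : Set F := {x | x ∈ K ∧ (2 : ℝ) • z - x ∈ K}

/-- Brunn-Minkowski for a set and its reflection -/
theorem refl_bm (E Q : Set F) (hE : MeasurableSet E) (hQ : MeasurableSet Q)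
    (h : ∀ e ∈ E, ∀ e' ∈ E, e - e' ∈ Q) :
    ENNReal.ofReal (2 ^ Module.finrank ℝ F) * μ E ≤ μ Q := by
  have hE' : MeasurableSet (-E) := hE.neg
  have hQ' : MeasurableSet ((fun x : F => (2 : ℝ) • x) ⁻¹' Q) := by
    exact hQ.preimage (by fun_prop)
  have hPL := Pool.Agent.H212R2.KLS.PL μ (1 / 2) (by norm_num) (by norm_num)
    (E.indicator 1) ((-E).indicator 1) (((fun x : F => (2 : ℝ) • x) ⁻¹' Q).indicator 1)
    (measurable_one.indicator hE) (measurable_one.indicator hE') (measurable_one.indicator hQ') ?_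
  · rw [lintegral_indicator_one hE, lintegral_indicator_one hE', lintegral_indicator_one hQ',
      Measure.measure_neg] at hPL
    have h2 : μ E ≤ μ ((fun x : F => (2 : ℝ) • x) ⁻¹' Q) := by
      refine le_trans (le_of_eq ?_) hPL
      rcases eq_or_ne (μ E) ∞ with h | h
      · rw [h]
        norm_num
      · rcases eq_or_ne (μ E) 0 with h0 | h0
        · rw [h0]
          norm_num
        · rw [← ENNReal.rpow_add _ _ h0 h]
          norm_num
    have h3 : μ ((fun x : F => (2 : ℝ) • x) ⁻¹' Q) =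
        ENNReal.ofReal |((2 : ℝ) ^ Module.finrank ℝ F)⁻¹| * μ Q :=
      Measure.addHaar_preimage_smul μ (by norm_num) Q
    calc ENNReal.ofReal (2 ^ Module.finrank ℝ F) * μ E
        ≤ ENNReal.ofReal (2 ^ Module.finrank ℝ F) *
          (ENNReal.ofReal |((2 : ℝ) ^ Module.finrank ℝ F)⁻¹| * μ Q) := by
          rw [← h3]
          gcongr
      _ = μ Q := by
          rw [← mul_assoc, ← ENNReal.ofReal_mul (by positivity)]
          have : (2 : ℝ) ^ Module.finrank ℝ F * |((2 : ℝ) ^ Module.finrank ℝ F)⁻¹| = 1 := by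
            rw [abs_of_pos (by positivity)]
            field_simp
          rw [this]
          simp
  · intro x y
    by_cases hx : x ∈ E
    · by_cases hy : y ∈ -E
      · have hm : (1 - (1 / 2 : ℝ)) • x + (1 / 2 : ℝ) • y ∈ (fun x : F => (2 : ℝ) • x) ⁻¹' Q := by
          have h1 := h x hx (-y) hy
          rw [mem_preimage]
          convert h1 using 1
          rw [smul_add, smul_smul, smul_smul]
          norm_num
        rw [indicator_of_mem hx, indicator_of_mem hy, indicator_of_mem hm]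
        simp
      · rw [indicator_of_notMem hy, ENNReal.zero_rpow_of_pos (by norm_num), mul_zero]
        exact zero_le
    · rw [indicator_of_notMem hx, ENNReal.zero_rpow_of_pos (by norm_num), zero_mul]
      exact zero_le

/-- the fibre of triples with given mean `z` and given `m` -/
def Ef (K : Set F) (z m : F) : Set F :=
  {w | (3 : ℝ) • m - (3 : ℝ) • w ∈ K ∧ (6 : ℝ) • w ∈ K ∧
    (3 : ℝ) • z - (3 : ℝ) • m - (3 : ℝ) • w ∈ K}

def Qf (K : Set F) (z m : F) : Set F :=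
  {w | (2 : ℝ) • m + (2 : ℝ) • w ∈ Ks K z ∧ (2 : ℝ) • m - (2 : ℝ) • w ∈ Ks K z}

theorem Ks_meas (K : Set F) (hK : MeasurableSet K) (z : F) : MeasurableSet (Ks K z) := by
  have : Ks K z = K ∩ (fun x => (2 : ℝ) • z - x) ⁻¹' K := rfl
  rw [this]
  exact hK.inter (hK.preimage (by fun_prop))

theorem Ef_meas (K : Set F) (hK : MeasurableSet K) (z m : F) : MeasurableSet (Ef K z m) := by
  have : Ef K z m = (fun w => (3 : ℝ) • m - (3 : ℝ) • w) ⁻¹' K ∩ ((fun w => (6 : ℝ) • w) ⁻¹' K ∩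
    (fun w => (3 : ℝ) • z - (3 : ℝ) • m - (3 : ℝ) • w) ⁻¹' K) := rfl
  rw [this]
  exact (hK.preimage (by fun_prop)).inter ((hK.preimage (by fun_prop)).inter
    (hK.preimage (by fun_prop)))

theorem Qf_meas (K : Set F) (hK : MeasurableSet K) (z m : F) : MeasurableSet (Qf K z m) := by
  have : Qf K z m = (fun w => (2 : ℝ) • m + (2 : ℝ) • w) ⁻¹' (Ks K z) ∩
    (fun w => (2 : ℝ) • m - (2 : ℝ) • w) ⁻¹' (Ks K z) := rfl
  rw [this]
  exact ((Ks_meas K hK z).preimage (by fun_prop)).inter ((Ks_meas K hK z).preimage (by fun_prop))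

theorem Ef_sub (K : Set F) (hc : Convex ℝ K) (z m : F) :
    ∀ e ∈ Ef K z m, ∀ e' ∈ Ef K z m, e - e' ∈ Qf K z m := by
  have key : ∀ a ∈ K, ∀ b ∈ K, (2 / 3 : ℝ) • a + (1 / 3 : ℝ) • b ∈ K := fun a ha b hb =>
    hc ha hb (by norm_num) (by norm_num) (by norm_num)
  rintro e ⟨h1, h2, h3⟩ e' ⟨h1', h2', h3'⟩
  refine ⟨⟨?_, ?_⟩, ⟨?_, ?_⟩⟩
  · have := key _ h1' _ h2
    convert this using 1
    module
  · have := key _ h3 _ h2'
    convert this using 1
    module
  · have := key _ h1 _ h2'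
    convert this using 1
    module
  · have := key _ h3' _ h2
    convert this using 1
    module

theorem Ef_le (K : Set F) (hK : MeasurableSet K) (hc : Convex ℝ K) (z m : F) :
    ENNReal.ofReal (2 ^ Module.finrank ℝ F) * μ (Ef K z m) ≤ μ (Qf K z m) :=
  refl_bm μ _ _ (Ef_meas K hK z m) (Qf_meas K hK z m) (Ef_sub K hc z m)

/-- `∫ |Q_m| dm = 8^{-n} |K_z|^2` -/
theorem Qf_int (K : Set F) (hK : MeasurableSet K) (z : F) :
    ENNReal.ofReal (8 ^ Module.finrank ℝ F) * ∫⁻ m, μ (Qf K z m) ∂μ = μ (Ks K z) ^ 2 := by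
  set J : F → ℝ≥0∞ := (Ks K z).indicator 1 with hJ
  have hJm : Measurable J := measurable_one.indicator (Ks_meas K hK z)
  have h1 : ∀ m, μ (Qf K z m) = ∫⁻ w, J ((2 : ℝ) • m + (2 : ℝ) • w) * J ((2 : ℝ) • m - (2 : ℝ) • w) ∂μ := by
    intro m
    rw [← lintegral_indicator_one (Qf_meas K hK z m)]
    apply lintegral_congr
    intro w
    by_cases ha : (2 : ℝ) • m + (2 : ℝ) • w ∈ Ks K z
    · by_cases hb : (2 : ℝ) • m - (2 : ℝ) • w ∈ Ks K z
      · rw [indicator_of_mem (show w ∈ Qf K z m from ⟨ha, hb⟩)]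
        simp [hJ, ha, hb]
      · rw [indicator_of_notMem (show w ∉ Qf K z m from fun h => hb h.2)]
        simp [hJ, hb]
    · rw [indicator_of_notMem (show w ∉ Qf K z m from fun h => ha h.1)]
      simp [hJ, ha]
  have hJi : ∫⁻ p, J p ∂μ = μ (Ks K z) := lintegral_indicator_one (Ks_meas K hK z)
  simp_rw [h1]
  rw [lintegral_lintegral_swap (by fun_prop)]
  have h2 : ∀ w, ENNReal.ofReal (2 ^ Module.finrank ℝ F) *
      ∫⁻ m, J ((2 : ℝ) • m + (2 : ℝ) • w) * J ((2 : ℝ) • m - (2 : ℝ) • w) ∂μ =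
      ∫⁻ p, J p * J (p - (4 : ℝ) • w) ∂μ := by
    intro w
    rw [lint_aff μ 2 (by norm_num) ((2 : ℝ) • w) (fun p => J p * J (p - (4 : ℝ) • w))
      (by fun_prop)]
    rw [abs_of_pos (by norm_num : (0:ℝ) < 2)]
    congr 1
    apply lintegral_congr
    intro m
    congr 2
    module
  have h3 : ∀ p, ENNReal.ofReal (4 ^ Module.finrank ℝ F) * ∫⁻ w, J (p - (4 : ℝ) • w) ∂μ =
      μ (Ks K z) := by
    intro p
    have := lint_aff μ (-4) (by norm_num) p J hJm
    rw [hJi] at this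
    rw [this]
    norm_num
    congr 1
    apply lintegral_congr
    intro w
    congr 1
    module
  have h8 : ENNReal.ofReal ((8 : ℝ) ^ Module.finrank ℝ F) =
      ENNReal.ofReal (4 ^ Module.finrank ℝ F) * ENNReal.ofReal (2 ^ Module.finrank ℝ F) := by
    rw [← ENNReal.ofReal_mul (by positivity), ← mul_pow]
    norm_num
  calc ENNReal.ofReal ((8 : ℝ) ^ Module.finrank ℝ F) *
        ∫⁻ w, ∫⁻ m, J ((2 : ℝ) • m + (2 : ℝ) • w) * J ((2 : ℝ) • m - (2 : ℝ) • w) ∂μ ∂μ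
      = ENNReal.ofReal (4 ^ Module.finrank ℝ F) * ∫⁻ w, ENNReal.ofReal (2 ^ Module.finrank ℝ F) *
          ∫⁻ m, J ((2 : ℝ) • m + (2 : ℝ) • w) * J ((2 : ℝ) • m - (2 : ℝ) • w) ∂μ ∂μ := by
        rw [h8, lintegral_const_mul' _ _ ENNReal.ofReal_ne_top, mul_assoc]
    _ = ENNReal.ofReal (4 ^ Module.finrank ℝ F) *
          ∫⁻ w, ∫⁻ p, J p * J (p - (4 : ℝ) • w) ∂μ ∂μ := by
        simp_rw [h2]
    _ = ENNReal.ofReal (4 ^ Module.finrank ℝ F) *
          ∫⁻ p, ∫⁻ w, J p * J (p - (4 : ℝ) • w) ∂μ ∂μ := by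
        rw [lintegral_lintegral_swap (by fun_prop)]
    _ = ∫⁻ p, J p * μ (Ks K z) ∂μ := by
        rw [← lintegral_const_mul' _ _ ENNReal.ofReal_ne_top]
        apply lintegral_congr
        intro p
        rw [lintegral_const_mul _ (by fun_prop), ← h3 p]
        ring
    _ = μ (Ks K z) ^ 2 := by
        rw [lintegral_mul_const _ hJm, hJi, sq]

/-- **The triple inequality.** -/
theorem triple (K : Set F) (hK : MeasurableSet K) (hc : Convex ℝ K) (ω : F → ℝ≥0∞)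
    (hω : Measurable ω) :
    ∫⁻ y, ∫⁻ x, ∫⁻ t, K.indicator (1 : F → ℝ≥0∞) y * (K.indicator (1 : F → ℝ≥0∞) x *
      (K.indicator (1 : F → ℝ≥0∞) t * ω ((1 / 3 : ℝ) • (x + y + t)))) ∂μ ∂μ ∂μ ≤
      ENNReal.ofReal ((27 / 8) ^ Module.finrank ℝ F) * ∫⁻ z, ω z * μ (Ks K z) ^ 2 ∂μ := by
  set I : F → ℝ≥0∞ := K.indicator 1 with hI
  have hIm : Measurable I := measurable_one.indicator hK
  set n := Module.finrank ℝ F with hn
  -- change of variables
  have e1 : ∫⁻ y, ∫⁻ x, ∫⁻ t, I y * (I x * (I t * ω ((1 / 3 : ℝ) • (x + y + t)))) ∂μ ∂μ ∂μ =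
      ENNReal.ofReal (6 ^ n) * (ENNReal.ofReal (3 ^ n) * (ENNReal.ofReal (3 ^ n) *
        ∫⁻ w, ∫⁻ m, ∫⁻ z, ω z * (I ((3 : ℝ) • m - (3 : ℝ) • w) * (I ((6 : ℝ) • w) *
          I ((3 : ℝ) • z - (3 : ℝ) • m - (3 : ℝ) • w))) ∂μ ∂μ ∂μ)) := by
    rw [lint_aff μ 6 (by norm_num) 0 _ (by fun_prop), abs_of_pos (by norm_num : (0:ℝ) < 6)]
    congr 1
    rw [← lintegral_const_mul' _ _ ENNReal.ofReal_ne_top,
      ← lintegral_const_mul' _ _ ENNReal.ofReal_ne_top]
    apply lintegral_congr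
    intro w
    rw [lint_aff μ 3 (by norm_num) (-((3 : ℝ) • w)) _ (by fun_prop),
      abs_of_pos (by norm_num : (0:ℝ) < 3)]
    congr 1
    rw [← lintegral_const_mul' _ _ ENNReal.ofReal_ne_top]
    apply lintegral_congr
    intro m
    rw [lint_aff μ 3 (by norm_num) (-((3 : ℝ) • m) - (3 : ℝ) • w) _ (by fun_prop),
      abs_of_pos (by norm_num : (0:ℝ) < 3)]
    congr 1
    apply lintegral_congr
    intro z
    have a1 : (6 : ℝ) • w + 0 = (6 : ℝ) • w := by rw [add_zero]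
    have a2 : (3 : ℝ) • m + -((3 : ℝ) • w) = (3 : ℝ) • m - (3 : ℝ) • w := by module
    have a3 : (3 : ℝ) • z + (-((3 : ℝ) • m) - (3 : ℝ) • w) =
        (3 : ℝ) • z - (3 : ℝ) • m - (3 : ℝ) • w := by module
    rw [a1, a2, a3]
    have a4 : (1 / 3 : ℝ) • ((3 : ℝ) • m - (3 : ℝ) • w + (6 : ℝ) • w +
        ((3 : ℝ) • z - (3 : ℝ) • m - (3 : ℝ) • w)) = z := by module
    rw [a4]
    ring
  -- swapping
  have e2 : ∫⁻ w, ∫⁻ m, ∫⁻ z, ω z * (I ((3 : ℝ) • m - (3 : ℝ) • w) * (I ((6 : ℝ) • w) *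
          I ((3 : ℝ) • z - (3 : ℝ) • m - (3 : ℝ) • w))) ∂μ ∂μ ∂μ =
      ∫⁻ z, ω z * ∫⁻ m, μ (Ef K z m) ∂μ ∂μ := by
    have s1 : ∀ w, ∫⁻ m, ∫⁻ z, ω z * (I ((3 : ℝ) • m - (3 : ℝ) • w) * (I ((6 : ℝ) • w) *
          I ((3 : ℝ) • z - (3 : ℝ) • m - (3 : ℝ) • w))) ∂μ ∂μ =
        ∫⁻ z, ∫⁻ m, ω z * (I ((3 : ℝ) • m - (3 : ℝ) • w) * (I ((6 : ℝ) • w) *
          I ((3 : ℝ) • z - (3 : ℝ) • m - (3 : ℝ) • w))) ∂μ ∂μ := by
      intro w
      rw [lintegral_lintegral_swap (by fun_prop)]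
    simp_rw [s1]
    rw [lintegral_lintegral_swap (by fun_prop)]
    apply lintegral_congr
    intro z
    have s2 : ∀ m, μ (Ef K z m) = ∫⁻ w, I ((3 : ℝ) • m - (3 : ℝ) • w) * (I ((6 : ℝ) • w) *
          I ((3 : ℝ) • z - (3 : ℝ) • m - (3 : ℝ) • w)) ∂μ := by
      intro m
      rw [← lintegral_indicator_one (Ef_meas K hK z m)]
      apply lintegral_congr
      intro w
      by_cases h1 : (3 : ℝ) • m - (3 : ℝ) • w ∈ K
      · by_cases h2 : (6 : ℝ) • w ∈ K
        · by_cases h3 : (3 : ℝ) • z - (3 : ℝ) • m - (3 : ℝ) • w ∈ K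
          · rw [indicator_of_mem (show w ∈ Ef K z m from ⟨h1, h2, h3⟩)]
            simp [hI, h1, h2, h3]
          · rw [indicator_of_notMem (show w ∉ Ef K z m from fun h => h3 h.2.2)]
            simp [hI, h3]
        · rw [indicator_of_notMem (show w ∉ Ef K z m from fun h => h2 h.2.1)]
          simp [hI, h2]
      · rw [indicator_of_notMem (show w ∉ Ef K z m from fun h => h1 h.1)]
        simp [hI, h1]
    simp_rw [s2]
    rw [lintegral_lintegral_swap (by fun_prop), ← lintegral_const_mul _ (by fun_prop)]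
    apply lintegral_congr
    intro m
    rw [lintegral_const_mul _ (by fun_prop)]
  rw [e1, e2]
  -- Brunn-Minkowski in the fibres
  have e3 : ∀ z, ENNReal.ofReal (16 ^ n) * ∫⁻ m, μ (Ef K z m) ∂μ ≤ μ (Ks K z) ^ 2 := by
    intro z
    rw [← Qf_int μ K hK z]
    have : ENNReal.ofReal ((16 : ℝ) ^ n) = ENNReal.ofReal (8 ^ n) * ENNReal.ofReal (2 ^ n) := by
      rw [← ENNReal.ofReal_mul (by positivity), ← mul_pow]
      norm_num
    rw [this, mul_assoc, ← lintegral_const_mul' _ _ ENNReal.ofReal_ne_top]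
    gcongr with m
    exact Ef_le μ K hK hc z m
  have e4 : ENNReal.ofReal (6 ^ n) * (ENNReal.ofReal (3 ^ n) * ENNReal.ofReal (3 ^ n)) =
      ENNReal.ofReal ((27 / 8) ^ n) * ENNReal.ofReal (16 ^ n) := by
    rw [← ENNReal.ofReal_mul (by positivity), ← ENNReal.ofReal_mul (by positivity),
      ← ENNReal.ofReal_mul (by positivity), ← mul_pow, ← mul_pow, ← mul_pow]
    norm_num
  calc ENNReal.ofReal (6 ^ n) * (ENNReal.ofReal (3 ^ n) * (ENNReal.ofReal (3 ^ n) *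
        ∫⁻ z, ω z * ∫⁻ m, μ (Ef K z m) ∂μ ∂μ))
      = (ENNReal.ofReal (6 ^ n) * (ENNReal.ofReal (3 ^ n) * ENNReal.ofReal (3 ^ n))) *
        ∫⁻ z, ω z * ∫⁻ m, μ (Ef K z m) ∂μ ∂μ := by ring
    _ = ENNReal.ofReal ((27 / 8) ^ n) * ∫⁻ z, ω z * (ENNReal.ofReal (16 ^ n) *
          ∫⁻ m, μ (Ef K z m) ∂μ) ∂μ := by
        rw [e4, mul_assoc, ← lintegral_const_mul' _ _ ENNReal.ofReal_ne_top]
        congr 1
        apply lintegral_congr
        intro z
        ring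
    _ ≤ ENNReal.ofReal ((27 / 8) ^ n) * ∫⁻ z, ω z * μ (Ks K z) ^ 2 ∂μ := by
        gcongr with z
        exact e3 z

/-- `∫ |K_z| dz = 2^{-n} |K|^2` -/
theorem Ks_int (K : Set F) (hK : MeasurableSet K) :
    ENNReal.ofReal (2 ^ Module.finrank ℝ F) * ∫⁻ z, μ (Ks K z) ∂μ = μ K ^ 2 := by
  set I : F → ℝ≥0∞ := K.indicator 1 with hI
  have hIm : Measurable I := measurable_one.indicator hK
  have h1 : ∀ z, μ (Ks K z) = ∫⁻ x, I x * I ((2 : ℝ) • z - x) ∂μ := by
    intro z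
    rw [← lintegral_indicator_one (Ks_meas K hK z)]
    apply lintegral_congr
    intro x
    by_cases ha : x ∈ K
    · by_cases hb : (2 : ℝ) • z - x ∈ K
      · rw [indicator_of_mem (show x ∈ Ks K z from ⟨ha, hb⟩)]
        simp [hI, ha, hb]
      · rw [indicator_of_notMem (show x ∉ Ks K z from fun h => hb h.2)]
        simp [hI, hb]
    · rw [indicator_of_notMem (show x ∉ Ks K z from fun h => ha h.1)]
      simp [hI, ha]
  simp_rw [h1]
  rw [lintegral_lintegral_swap (by fun_prop), ← lintegral_const_mul' _ _ ENNReal.ofReal_ne_top]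
  have h2 : ∀ x, ENNReal.ofReal (2 ^ Module.finrank ℝ F) * ∫⁻ z, I x * I ((2 : ℝ) • z - x) ∂μ =
      I x * μ K := by
    intro x
    rw [lintegral_const_mul _ (by fun_prop), ← lintegral_indicator_one hK,
      lint_aff μ 2 (by norm_num) (-x) _ (measurable_one.indicator hK),
      abs_of_pos (by norm_num : (0:ℝ) < 2)]
    simp only [← sub_eq_add_neg]
    rw [← hI]
    ring
  simp_rw [h2]
  rw [lintegral_mul_const _ hIm, lintegral_indicator_one hK, sq]

end Pool.Agent.TH619.SYM
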