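import Pool.Agent.TH619.SYM.Core

set_option autoImplicit false
set_option linter.unusedSectionVars false

/-!
# `|K ∩ (-K)| ≥ (16 / 27) ^ n |K|` for convex bodies with centroid at the origin
-/

namespace Pool.Agent.TH619.SYM

open MeasureTheory Set
open scoped ENNReal Pointwise Topology

/-- supergradient of a concave function at a point of an open set -/
theorem supergrad {F : Type*} [NormedAddCommGroup F] [NormedSpace ℝ F] [FiniteDimensional ℝ F]
    {U : Set F} (hU : IsOpen U) (g : F → ℝ) (hg : ConcaveOn ℝ U g) (x0 : F) (hx0 : x0 ∈ U) :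
    ∃ q : F →L[ℝ] ℝ, ∀ z ∈ U, g z ≤ g x0 + q (z - x0) := by
  have hcont : ContinuousOn g U := hg.continuousOn hU
  let S : Set (F × ℝ) := {p | p.1 ∈ U ∧ p.2 < g p.1}
  have hSc : Convex ℝ S := hg.convex_strict_hypograph
  have hSo : IsOpen S := by
    have h2 : ContinuousOn (fun p : F × ℝ => g p.1 - p.2) (Prod.fst ⁻¹' U) := by
      apply ContinuousOn.sub
      · exact hcont.comp continuous_fst.continuousOn (fun p hp => hp)
      · exact continuous_snd.continuousOn
    have h3 := h2.isOpen_inter_preimage (hU.preimage continuous_fst) (isOpen_Ioi (a := (0:ℝ)))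
    convert h3 using 1
    ext p
    simp [S]
  obtain ⟨f, hf⟩ := geometric_hahn_banach_open_point hSc hSo
    (show (x0, g x0) ∉ S from fun h => lt_irrefl _ h.2)
  set β : ℝ := f (0, 1) with hβd
  have hsplit : ∀ (x : F) (t : ℝ), f (x, t) = f (x, 0) + t * β := by
    intro x t
    have : ((x, t) : F × ℝ) = (x, 0) + t • ((0, 1) : F × ℝ) := by
      ext <;> simp
    rw [this, map_add, map_smul, smul_eq_mul]
  have hβ : 0 < β := by
    have h1 := hf (x0, g x0 - 1) ⟨hx0, by simp⟩
    rw [hsplit, hsplit x0 (g x0)] at h1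
    nlinarith
  refine ⟨-(β⁻¹) • (f.comp (ContinuousLinearMap.inl ℝ F ℝ)), fun z hz => ?_⟩
  have h3 : g z ≤ (f (x0, 0) + g x0 * β - f (z, 0)) / β := by
    apply le_of_forall_lt
    intro t ht
    have h1 := hf (z, t) ⟨hz, ht⟩
    rw [hsplit, hsplit x0 (g x0)] at h1
    rw [lt_div_iff₀ hβ]
    linarith
  refine h3.trans (le_of_eq ?_)
  have h4 : f (z - x0, 0) = f (z, 0) - f (x0, 0) := by
    rw [← map_sub]
    simp
  simp only [smul_apply, ContinuousLinearMap.comp_apply,
    ContinuousLinearMap.inl_apply, smul_eq_mul, h4]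
  field_simp
  ring

variable {F : Type*} [NormedAddCommGroup F] [NormedSpace ℝ F] [FiniteDimensional ℝ F]
  [MeasurableSpace F] [BorelSpace F] (μ : Measure F) [μ.IsAddHaarMeasure]

theorem ofReal_integral_le {α : Type*} [MeasurableSpace α] (ν : Measure α) (f : α → ℝ)
    (hf : Integrable f ν) : ENNReal.ofReal (∫ x, f x ∂ν) ≤ ∫⁻ x, ENNReal.ofReal (f x) ∂ν := by
  rw [integral_eq_lintegral_pos_part_sub_lintegral_neg_part hf]
  calc _ ≤ ENNReal.ofReal ((∫⁻ x, ENNReal.ofReal (f x) ∂ν).toReal) := by
        apply ENNReal.ofReal_le_ofReal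
        have : 0 ≤ (∫⁻ x, ENNReal.ofReal (-f x) ∂ν).toReal := ENNReal.toReal_nonneg
        linarith
    _ ≤ _ := ENNReal.ofReal_toReal_le

/-- integrals of affine functions over a body with centroid `0` -/
theorem lin_le (K : Set F) (hk : IsCompact K) (h0 : ∫ x in K, x ∂μ = 0) (a : ℝ) (l : F →L[ℝ] ℝ) :
    ENNReal.ofReal (a * μ.real K) ≤
      ∫⁻ t, K.indicator (1 : F → ℝ≥0∞) t * ENNReal.ofReal (a + l t) ∂μ := by
  have hid : IntegrableOn (fun t : F => t) K μ := continuous_id.continuousOn.integrableOn_compact hk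
  have hcon : IntegrableOn (fun _ : F => a) K μ := continuous_const.continuousOn.integrableOn_compact hk
  have h1 : ∫⁻ t, K.indicator (1 : F → ℝ≥0∞) t * ENNReal.ofReal (a + l t) ∂μ =
      ∫⁻ t in K, ENNReal.ofReal (a + l t) ∂μ := by
    rw [← lintegral_indicator hk.measurableSet]
    apply lintegral_congr
    intro t
    by_cases ht : t ∈ K <;> simp [ht]
  rw [h1]
  refine le_trans (le_of_eq ?_) (ofReal_integral_le (μ.restrict K) (fun t => a + l t)
    (hcon.add (l.integrable_comp hid)))
  congr 1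
  rw [integral_add hcon (l.integrable_comp hid), l.integral_comp_comm hid, h0, map_zero, add_zero,
    setIntegral_const, smul_eq_mul, mul_comm]

/-- the centroid of a convex body is an interior point -/
theorem centroid_mem (K : Set F) (hc : Convex ℝ K) (hk : IsCompact K) (hi : (interior K).Nonempty)
    (h0 : ∫ x in K, x ∂μ = 0) : (0 : F) ∈ interior K := by
  obtain ⟨x0, hx0⟩ := hi
  obtain ⟨ε, hε, hball⟩ := Metric.nhds_basis_closedBall.mem_iff.1 (isOpen_interior.mem_nhds hx0)
  have hid : IntegrableOn (fun t : F => t) K μ := continuous_id.continuousOn.integrableOn_compact hk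
  have : IsFiniteMeasure (μ.restrict K) := ⟨by
    rw [Measure.restrict_apply_univ]
    exact hk.measure_lt_top⟩
  have hsub : Metric.closedBall x0 ε ⊆ K := hball.trans interior_subset
  have hres : (μ.restrict K) (Metric.closedBall x0 ε) = μ (Metric.closedBall x0 ε) := by
    rw [Measure.restrict_apply Metric.isClosed_closedBall.measurableSet,
      inter_eq_self_of_subset_left hsub]
  have hne : (μ.restrict K) (Metric.closedBall x0 ε) ≠ 0 := by
    rw [hres]
    exact (Metric.measure_closedBall_pos μ x0 hε).ne'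
  have h1 : (⨍ x in Metric.closedBall x0 ε, x ∂(μ.restrict K)) ∈ interior K := by
    apply hball
    apply (convex_closedBall x0 ε).set_average_mem Metric.isClosed_closedBall hne
      (measure_ne_top _ _)
    · exact ae_restrict_mem Metric.isClosed_closedBall.measurableSet
    · exact hid.integrable.integrableOn
  have h2 := hc.average_mem_interior_of_set (μ := μ.restrict K) (f := fun x : F => x) hne
    (ae_restrict_mem hk.measurableSet) hid h1
  rw [average_eq, h0, smul_zero] at h2
  exact h2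

theorem Ks_pos (K : Set F) (z : F) (hz : z ∈ interior K) : 0 < μ (Ks K z) := by
  have h1 : IsOpen (interior K ∩ (fun x => (2 : ℝ) • z - x) ⁻¹' interior K) :=
    isOpen_interior.inter (isOpen_interior.preimage (by fun_prop))
  have h2 : (interior K ∩ (fun x => (2 : ℝ) • z - x) ⁻¹' interior K).Nonempty := by
    refine ⟨z, hz, ?_⟩
    rw [mem_preimage]
    have : (2 : ℝ) • z - z = z := by module
    rw [this]
    exact hz
  exact (h1.measure_pos μ h2).trans_le
    (measure_mono fun x hx => ⟨interior_subset hx.1, interior_subset hx.2⟩)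

theorem Ks_log (K : Set F) (hK : MeasurableSet K) (hc : Convex ℝ K) (a b : F) (t : ℝ)
    (ht0 : 0 < t) (ht1 : t < 1) :
    μ (Ks K a) ^ (1 - t) * μ (Ks K b) ^ t ≤ μ (Ks K ((1 - t) • a + t • b)) := by
  have hPL := Pool.Agent.H212R2.KLS.PL μ t ht0 ht1
    ((Ks K a).indicator 1) ((Ks K b).indicator 1) ((Ks K ((1 - t) • a + t • b)).indicator 1)
    (measurable_one.indicator (Ks_meas K hK a)) (measurable_one.indicator (Ks_meas K hK b))
    (measurable_one.indicator (Ks_meas K hK _)) ?_
  · rwa [lintegral_indicator_one (Ks_meas K hK a), lintegral_indicator_one (Ks_meas K hK b),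
      lintegral_indicator_one (Ks_meas K hK _)] at hPL
  · intro x y
    by_cases hx : x ∈ Ks K a
    · by_cases hy : y ∈ Ks K b
      · have hm : (1 - t) • x + t • y ∈ Ks K ((1 - t) • a + t • b) := by
          refine ⟨hc hx.1 hy.1 (by linarith) ht0.le (by ring), ?_⟩
          have := hc hx.2 hy.2 (by linarith : 0 ≤ 1 - t) ht0.le (by ring)
          convert this using 1
          module
        rw [indicator_of_mem hx, indicator_of_mem hy, indicator_of_mem hm]
        simp
      · rw [indicator_of_notMem hy, ENNReal.zero_rpow_of_pos ht0, mul_zero]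
        exact zero_le
    · rw [indicator_of_notMem hx, ENNReal.zero_rpow_of_pos (by linarith), zero_mul]
      exact zero_le

theorem Ks_concave (K : Set F) (hk : IsCompact K) (hc : Convex ℝ K) :
    ConcaveOn ℝ (interior K) fun z => Real.log (μ.real (Ks K z)) := by
  have hfin : ∀ z, μ (Ks K z) ≠ ∞ := fun z =>
    ((measure_mono fun x hx => hx.1).trans_lt hk.measure_lt_top).ne
  refine ⟨hc.interior, ?_⟩
  intro x hx y hy a b ha hb hab
  rcases eq_or_lt_of_le ha with rfl | ha'
  · have : b = 1 := by linarith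
    subst this
    simp
  rcases eq_or_lt_of_le hb with rfl | hb'
  · have : a = 1 := by linarith
    subst this
    simp
  have ha1 : a = 1 - b := by linarith
  subst ha1
  have h1 := Ks_log μ K hk.measurableSet hc x y b hb' (by linarith)
  have hpx : 0 < μ.real (Ks K x) := ENNReal.toReal_pos (Ks_pos μ K x hx).ne' (hfin x)
  have hpy : 0 < μ.real (Ks K y) := ENNReal.toReal_pos (Ks_pos μ K y hy).ne' (hfin y)
  have h2 : μ.real (Ks K x) ^ (1 - b) * μ.real (Ks K y) ^ b ≤
      μ.real (Ks K ((1 - b) • x + b • y)) := by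
    have := ENNReal.toReal_mono (hfin _) h1
    rwa [ENNReal.toReal_mul, ← ENNReal.toReal_rpow, ← ENNReal.toReal_rpow] at this
  have h3 := Real.log_le_log (by positivity) h2
  rw [Real.log_mul (by positivity) (by positivity), Real.log_rpow hpx, Real.log_rpow hpy] at h3
  simpa [smul_eq_mul] using h3

/-- **Main theorem** in a space with a Haar measure. -/
theorem main (K : Set F) (hc : Convex ℝ K) (hk : IsCompact K) (hi : (interior K).Nonempty)
    (h0 : ∫ x in K, x ∂μ = 0) :
    (16 / 27) ^ Module.finrank ℝ F * μ.real K ≤ μ.real (Ks K 0) := by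
  set n := Module.finrank ℝ F with hn
  have hKm := hk.measurableSet
  have hU0 : (0 : F) ∈ interior K := centroid_mem μ K hc hk hi h0
  have hfinK : μ K ≠ ∞ := hk.measure_lt_top.ne
  have hfin : ∀ z, μ (Ks K z) ≠ ∞ := fun z =>
    ((measure_mono fun x hx => hx.1).trans_lt hk.measure_lt_top).ne
  have hV : 0 < μ.real K := by
    apply ENNReal.toReal_pos _ hfinK
    exact ((isOpen_interior.measure_pos μ hi).trans_le (measure_mono interior_subset)).ne'
  obtain ⟨q, hq⟩ := supergrad isOpen_interior _ (Ks_concave μ K hk hc) 0 hU0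
  set V := μ.real K with hVd
  have hω : Measurable fun z : F => ENNReal.ofReal (1 - q z) := by fun_prop
  -- the upper bound
  have hk0 : 0 < μ.real (Ks K 0) := ENNReal.toReal_pos (Ks_pos μ K 0 hU0).ne' (hfin 0)
  have hle : ∀ z ∈ interior K, ENNReal.ofReal (1 - q z) * μ (Ks K z) ≤ μ (Ks K 0) := by
    intro z hz
    have h1 := hq z hz
    rw [sub_zero] at h1
    have hpz : 0 < μ.real (Ks K z) := ENNReal.toReal_pos (Ks_pos μ K z hz).ne' (hfin z)
    have h2 : μ.real (Ks K z) ≤ μ.real (Ks K 0) * Real.exp (q z) := by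
      have := Real.exp_le_exp.2 h1
      rwa [Real.exp_add, Real.exp_log hpz, Real.exp_log hk0] at this
    have h3 : (1 - q z) * μ.real (Ks K z) ≤ μ.real (Ks K 0) := by
      rcases le_or_gt (1 - q z) 0 with h | h
      · have : (1 - q z) * μ.real (Ks K z) ≤ 0 := mul_nonpos_of_nonpos_of_nonneg h hpz.le
        linarith
      · have h4 : 1 - q z ≤ Real.exp (-(q z)) := by
          have := Real.add_one_le_exp (-(q z))
          linarith
        calc (1 - q z) * μ.real (Ks K z) ≤
              Real.exp (-(q z)) * (μ.real (Ks K 0) * Real.exp (q z)) := by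
              gcongr
          _ = μ.real (Ks K 0) * (Real.exp (-(q z)) * Real.exp (q z)) := by ring
          _ = μ.real (Ks K 0) := by rw [← Real.exp_add]; simp
    have e1 : μ (Ks K z) = ENNReal.ofReal (μ.real (Ks K z)) := (ofReal_measureReal (hfin z)).symm
    have e2 : μ (Ks K 0) = ENNReal.ofReal (μ.real (Ks K 0)) := (ofReal_measureReal (hfin 0)).symm
    rw [e1, e2, ← ENNReal.ofReal_mul' hpz.le]
    exact ENNReal.ofReal_le_ofReal h3
  have hint : ∫⁻ z, ENNReal.ofReal (1 - q z) * μ (Ks K z) ^ 2 ∂μ ≤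
      μ (Ks K 0) * ∫⁻ z, μ (Ks K z) ∂μ := by
    rw [← lintegral_const_mul' _ _ (hfin 0)]
    apply lintegral_mono_ae
    have hfr : μ (frontier K) = 0 := hc.addHaar_frontier μ
    have : ∀ᵐ z ∂μ, z ∉ frontier K := by
      rw [ae_iff]
      simpa using hfr
    filter_upwards [this] with z hz
    by_cases hzK : z ∈ K
    · have hzi : z ∈ interior K := by
        by_contra h
        exact hz ⟨subset_closure hzK, h⟩
      calc ENNReal.ofReal (1 - q z) * μ (Ks K z) ^ 2
          = (ENNReal.ofReal (1 - q z) * μ (Ks K z)) * μ (Ks K z) := by ring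
        _ ≤ μ (Ks K 0) * μ (Ks K z) := by
            gcongr
            exact hle z hzi
    · have : Ks K z = ∅ := by
        rw [Set.eq_empty_iff_forall_notMem]
        rintro x ⟨hx1, hx2⟩
        apply hzK
        have := hc hx1 hx2 (by norm_num : (0:ℝ) ≤ 1 / 2) (by norm_num : (0:ℝ) ≤ 1 / 2)
          (by norm_num)
        convert this using 1
        module
      rw [this]
      simp
  -- the lower bound
  have hlow : ENNReal.ofReal (V ^ 3) ≤ ∫⁻ y, ∫⁻ x, ∫⁻ t, K.indicator (1 : F → ℝ≥0∞) y *
      (K.indicator (1 : F → ℝ≥0∞) x * (K.indicator (1 : F → ℝ≥0∞) t *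
        ENNReal.ofReal (1 - q ((1 / 3 : ℝ) • (x + y + t))))) ∂μ ∂μ ∂μ := by
    have hI : ∀ x : F, K.indicator (1 : F → ℝ≥0∞) x ≠ ∞ := by
      intro x
      by_cases hx : x ∈ K <;> simp [hx]
    have l3 := lin_le μ K hk h0 (V ^ 2) (-(V ^ 2 / 3) • q)
    have e3 : V ^ 2 * μ.real K = V ^ 3 := by rw [← hVd]; ring
    rw [e3] at l3
    refine l3.trans (lintegral_mono fun y => ?_)
    have e0 : ∫⁻ x, ∫⁻ t, K.indicator (1 : F → ℝ≥0∞) y * (K.indicator (1 : F → ℝ≥0∞) x *
        (K.indicator (1 : F → ℝ≥0∞) t *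
        ENNReal.ofReal (1 - q ((1 / 3 : ℝ) • (x + y + t))))) ∂μ ∂μ =
        K.indicator (1 : F → ℝ≥0∞) y * ∫⁻ x, K.indicator (1 : F → ℝ≥0∞) x *
          ∫⁻ t, K.indicator (1 : F → ℝ≥0∞) t *
            ENNReal.ofReal (1 - q ((1 / 3 : ℝ) • (x + y + t))) ∂μ ∂μ := by
      rw [← lintegral_const_mul' _ _ (hI y)]
      apply lintegral_congr
      intro x
      rw [lintegral_const_mul' _ _ (hI y), lintegral_const_mul' _ _ (hI x)]
    beta_reduce
    rw [e0]
    gcongr
    have l2 := lin_le μ K hk h0 ((1 - q y / 3) * V) (-(V / 3) • q)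
    refine le_trans (le_of_eq ?_) (l2.trans (lintegral_mono fun x => ?_))
    · congr 1
      simp only [smul_apply, smul_eq_mul]
      rw [← hVd]
      ring
    · beta_reduce
      gcongr
      have l1 := lin_le μ K hk h0 (1 - q y / 3 - q x / 3) (-(1 / 3 : ℝ) • q)
      refine le_trans (le_of_eq ?_) (l1.trans (le_of_eq ?_))
      · congr 1
        simp only [smul_apply, smul_eq_mul]
        rw [← hVd]
        ring
      · apply lintegral_congr
        intro t
        congr 2
        simp only [smul_apply, smul_eq_mul, map_smul, map_add]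
        ring
  have htri := triple μ K hKm hc (fun z => ENNReal.ofReal (1 - q z)) hω
  have hfinal : ENNReal.ofReal (2 ^ n) * ENNReal.ofReal (V ^ 3) ≤
      ENNReal.ofReal ((27 / 8) ^ n) * (μ (Ks K 0) * μ K ^ 2) := by
    rw [← Ks_int μ K hKm]
    calc ENNReal.ofReal (2 ^ n) * ENNReal.ofReal (V ^ 3)
        ≤ ENNReal.ofReal (2 ^ n) * (ENNReal.ofReal ((27 / 8) ^ n) *
            (μ (Ks K 0) * ∫⁻ z, μ (Ks K z) ∂μ)) := by
          gcongr
          exact (hlow.trans htri).trans (by gcongr)
      _ = _ := by ring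
  have e1 : μ K = ENNReal.ofReal V := (ofReal_measureReal hfinK).symm
  have e2 : μ (Ks K 0) = ENNReal.ofReal (μ.real (Ks K 0)) := (ofReal_measureReal (hfin 0)).symm
  rw [e1, e2, ← ENNReal.ofReal_pow hV.le, ← ENNReal.ofReal_mul (by positivity),
    ← ENNReal.ofReal_mul (by positivity), ← ENNReal.ofReal_mul (by positivity),
    ENNReal.ofReal_le_ofReal_iff (by positivity)] at hfinal
  have h27 : (0:ℝ) < (27 / 8) ^ n := by positivity
  have hmul : (16 / 27 : ℝ) ^ n * (27 / 8) ^ n = 2 ^ n := by
    rw [← mul_pow]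
    norm_num
  have hV2 : 0 < V ^ 2 := by positivity
  have : ((16 / 27) ^ n * V) * ((27 / 8) ^ n * V ^ 2) ≤ μ.real (Ks K 0) * ((27 / 8) ^ n * V ^ 2) := by
    calc ((16 / 27 : ℝ) ^ n * V) * ((27 / 8) ^ n * V ^ 2)
        = ((16 / 27 : ℝ) ^ n * (27 / 8) ^ n) * V ^ 3 := by ring
      _ = 2 ^ n * V ^ 3 := by rw [hmul]
      _ ≤ _ := hfinal
      _ = _ := by ring
  exact le_of_mul_le_mul_right this (by positivity)

end Pool.Agent.TH619.SYM
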